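import Pool.Agent.Lib.MP_675cd9_nt.Defs

set_option autoImplicit false

namespace Pool.Agent.Lib.MP_675cd9_nt

open Filter Topology

theorem one_le_d (a : ℕ+) : (1 : ℝ) ≤ ((a : ℕ) : ℝ) := by exact_mod_cast a.pos

theorem step1 {a u v : ℝ} (ha : 1 ≤ a) (hu : 0 ≤ u) (hv : 0 ≤ v) :
    |1 / (a + u) - 1 / (a + v)| ≤ |u - v| := by
  have e : 1 / (a + u) - 1 / (a + v) = (v - u) / ((a + u) * (a + v)) := by field_simp; ring
  rw [e, abs_div, abs_sub_comm, abs_of_pos (by positivity : 0 < (a + u) * (a + v))]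
  exact div_le_self (abs_nonneg _) (by nlinarith)

theorem step2 {a b u v : ℝ} (ha : 1 ≤ a) (hb : 1 ≤ b) (hu : 0 ≤ u) (hv : 0 ≤ v) :
    |1 / (a + 1 / (b + u)) - 1 / (a + 1 / (b + v))| ≤ |u - v| / 4 := by
  have e : 1 / (a + 1 / (b + u)) - 1 / (a + 1 / (b + v)) =
      (u - v) / ((a * (b + u) + 1) * (a * (b + v) + 1)) := by field_simp; ring
  have h1 : 2 ≤ a * (b + u) + 1 := by nlinarith
  have h2 : 2 ≤ a * (b + v) + 1 := by nlinarith
  rw [e, abs_div, abs_of_pos (by positivity : 0 < (a * (b + u) + 1) * (a * (b + v) + 1))]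
  gcongr
  nlinarith

theorem cfFin_mem (n : ℕ) : ∀ b, 0 ≤ cfFin n b ∧ cfFin n b ≤ 1 := by
  induction n with
  | zero => intro b; simp [cfFin]
  | succ n ih =>
    intro b
    have h1 := one_le_d (b 0)
    have h2 := (ih fun k => b (k + 1)).1
    rw [cfFin]
    exact ⟨by positivity, by rw [div_le_one (by positivity)]; linarith⟩

theorem cfFin_dist (n : ℕ) : ∀ b, |cfFin n b - cfFin (n + 1) b| ≤ 2 * (1 / 2) ^ n := by
  induction n using Nat.twoStepInduction with
  | zero =>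
    intro b
    have := cfFin_mem 1 b
    rw [abs_le]
    constructor <;> simp only [cfFin] at this ⊢ <;> linarith [this.1, this.2]
  | one =>
    intro b
    have h1 := cfFin_mem 1 b
    have h2 := cfFin_mem 2 b
    rw [abs_le]
    constructor <;> linarith [h1.1, h1.2, h2.1, h2.2]
  | more n ih _ =>
    intro b
    have h := ih fun k => b (k + 1 + 1)
    rw [cfFin, cfFin, cfFin, cfFin]
    refine (step2 (one_le_d _) (one_le_d _) (cfFin_mem _ _).1 (cfFin_mem _ _).1).trans ?_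
    rw [pow_add]
    linarith

theorem tendsto_cf (b : ℕ → ℕ+) : Tendsto (fun n => cfFin n b) atTop (𝓝 (cf b)) :=
  (cauchySeq_of_le_geometric (1 / 2) 2 (by norm_num) fun n => cfFin_dist n b).tendsto_limUnder

theorem cf_nonneg (b : ℕ → ℕ+) : 0 ≤ cf b :=
  ge_of_tendsto' (tendsto_cf b) fun n => (cfFin_mem n b).1

theorem cf_eq (b : ℕ → ℕ+) : cf b = 1 / (((b 0 : ℕ) : ℝ) + cf fun k => b (k + 1)) := by
  have h1 := one_le_d (b 0)
  have h2 := cf_nonneg fun k => b (k + 1)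
  refine tendsto_nhds_unique ((tendsto_add_atTop_iff_nat 1).2 (tendsto_cf b)) ?_
  exact tendsto_const_nhds.div (tendsto_const_nhds.add (tendsto_cf _)) (by positivity)

theorem cf_pos (b : ℕ → ℕ+) : 0 < cf b := by
  have h1 := one_le_d (b 0)
  have h2 := cf_nonneg fun k => b (k + 1)
  rw [cf_eq]
  positivity

theorem cf_lt_one (b : ℕ → ℕ+) : cf b < 1 := by
  have h1 := one_le_d (b 0)
  have h2 := cf_pos fun k => b (k + 1)
  rw [cf_eq, div_lt_one (by positivity)]
  linarith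

theorem digit_eq {a a' : ℕ+} {u v : ℝ} (hu : 0 < u ∧ u < 1) (hv : 0 < v ∧ v < 1)
    (h : ((a : ℕ) : ℝ) + u = ((a' : ℕ) : ℝ) + v) : a = a' ∧ u = v := by
  have h1 : (a : ℕ) < (a' : ℕ) + 1 := by
    have : ((a : ℕ) : ℝ) < (a' : ℕ) + 1 := by linarith [hu.1, hv.2]
    exact_mod_cast this
  have h2 : (a' : ℕ) < (a : ℕ) + 1 := by
    have : ((a' : ℕ) : ℝ) < (a : ℕ) + 1 := by linarith [hu.2, hv.1]
    exact_mod_cast this
  have h3 : a = a' := PNat.eq (by omega)
  subst h3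
  exact ⟨rfl, by linarith⟩

theorem cf_inj {b c : ℕ → ℕ+} (h : cf b = cf c) (k : ℕ) : b k = c k := by
  induction k generalizing b c with
  | zero =>
    rw [cf_eq b, cf_eq c, one_div, one_div, inv_inj] at h
    exact (digit_eq ⟨cf_pos _, cf_lt_one _⟩ ⟨cf_pos _, cf_lt_one _⟩ h).1
  | succ k ih =>
    rw [cf_eq b, cf_eq c, one_div, one_div, inv_inj] at h
    exact ih (digit_eq ⟨cf_pos _, cf_lt_one _⟩ ⟨cf_pos _, cf_lt_one _⟩ h).2

theorem cf_ne (n : ℕ) : ∀ (b : ℕ → ℕ+) (q : ℤ), q ≠ 0 → cf b * q ≠ n := by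
  induction n using Nat.strong_induction_on with
  | h n ih =>
    intro b q hq h
    have h0 := cf_pos b
    have h1 := one_le_d (b 0)
    have h2 := cf_pos fun k => b (k + 1)
    have h3 := cf_lt_one fun k => b (k + 1)
    have hn : n ≠ 0 := by
      rintro rfl
      exact mul_ne_zero h0.ne' (Int.cast_ne_zero.2 hq) (by simpa using h)
    have hn' : (0 : ℝ) < n := by positivity
    rw [cf_eq, div_mul_eq_mul_div, one_mul, div_eq_iff (by positivity)] at h
    have h4 : (cf fun k => b (k + 1)) * n = ((q - n * (b 0 : ℕ) : ℤ) : ℝ) := by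
      push_cast; linarith
    have h5 : 0 ≤ q - n * (b 0 : ℕ) := by
      have : (0 : ℝ) ≤ ((q - n * (b 0 : ℕ) : ℤ) : ℝ) := h4 ▸ by positivity
      exact_mod_cast this
    obtain ⟨m, hm⟩ := Int.eq_ofNat_of_zero_le h5
    rw [hm, Int.cast_natCast] at h4
    have h6 : m < n := by
      have : (m : ℝ) < n := by nlinarith
      exact_mod_cast this
    exact ih m h6 _ n (by exact_mod_cast hn) (by exact_mod_cast h4)

theorem cf_irr (b : ℕ → ℕ+) : Irrational (cf b) := by
  rintro ⟨r, hr⟩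
  have h0 : 0 ≤ r.num := Rat.num_nonneg.2 (by exact_mod_cast hr ▸ cf_nonneg b)
  obtain ⟨n, hn⟩ := Int.eq_ofNat_of_zero_le h0
  refine cf_ne n b r.den (by exact_mod_cast r.den_nz) ?_
  rw [← hr]
  have := Rat.mul_den_eq_num r
  rw [hn] at this
  exact_mod_cast this

/-- two forward orbits with the same digits approach each other -/
theorem orbit_close {b : ℕ → ℕ+} {y y' : ℕ → ℝ} (h0 : ∀ k, 0 < y k ∧ y k < 1)
    (h0' : ∀ k, 0 < y' k ∧ y' k < 1) (h : ∀ k, y (k + 1) = 1 / ((b k : ℕ) + y k))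
    (h' : ∀ k, y' (k + 1) = 1 / ((b k : ℕ) + y' k)) (k : ℕ) : |y k - y' k| ≤ 2 * (1 / 2) ^ k := by
  induction k using Nat.twoStepInduction with
  | zero => rw [abs_le]; constructor <;> linarith [h0 0, h0' 0]
  | one => rw [abs_le]; constructor <;> linarith [h0 1, h0' 1]
  | more k ih _ =>
    rw [h, h', h, h']
    refine (step2 (one_le_d _) (one_le_d _) (h0 k).1.le (h0' k).1.le).trans ?_
    rw [pow_add]
    linarith

theorem mobius (a : ℕ → ℕ+) (n : ℕ) : ∃ A B C D : ℕ, 0 < C + D ∧ (0 < n → 0 < C) ∧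
    ∀ t : ℕ → ℝ, (∀ k, t k * t (k + 1) = (a k : ℕ) * t (k + 1) + 1) →
      t 0 * (C * t n + D) = A * t n + B := by
  induction n with
  | zero => exact ⟨1, 0, 0, 1, by simp, by simp, by simp⟩
  | succ n ih =>
    obtain ⟨A, B, C, D, h1, -, h2⟩ := ih
    have h3 : 0 < C * a n + D := by nlinarith [(a n).pos]
    refine ⟨A * a n + B, A, C * a n + D, C, by omega, fun _ => h3, fun t ht => ?_⟩
    push_cast
    linear_combination t (n + 1) * h2 t ht - (t 0 * C - A) * ht n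

end Pool.Agent.Lib.MP_675cd9_nt
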