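import Pool.Agent.Lib.MP_675cd9_nt.CF

set_option autoImplicit false

namespace Pool.Agent.Lib.MP_675cd9_nt

/-- `u'` is the conjugate of `u` in `ℚ(x)` -/
def Conj (x u u' : ℝ) : Prop := ∃ a b : ℚ, u = a + b * x ∧ u' = a - b * x

theorem lin_indep {x : ℝ} (hx : Irrational x) {a b : ℚ} (h : (a : ℝ) + b * x = 0) :
    a = 0 ∧ b = 0 := by
  by_cases hb : b = 0
  · subst hb
    exact ⟨by exact_mod_cast (by simpa using h : (a : ℝ) = 0), rfl⟩
  · have hb' : (b : ℝ) ≠ 0 := by exact_mod_cast hb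
    exact absurd ⟨-a / b, by push_cast; field_simp; linarith⟩ hx

theorem Conj.unique {x u v v' : ℝ} (hx : Irrational x) (h : Conj x u v) (h' : Conj x u v') :
    v = v' := by
  obtain ⟨a, b, h1, h2⟩ := h
  obtain ⟨a', b', h1', h2'⟩ := h'
  obtain ⟨h3, h4⟩ := lin_indep hx (a := a - a') (b := b - b') (by push_cast; linarith)
  rw [h2, h2', sub_eq_zero.1 h3, sub_eq_zero.1 h4]

theorem Conj.sub {x u v : ℝ} (h : Conj x u v) (q : ℕ) : Conj x (u - q) (v - q) := by
  obtain ⟨a, b, h1, h2⟩ := h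
  exact ⟨a - q, b, by push_cast; linarith, by push_cast; linarith⟩

theorem Conj.refl {x u v : ℝ} (h : Conj x u v) : Conj x (1 - u) (1 - v) := by
  obtain ⟨a, b, h1, h2⟩ := h
  exact ⟨1 - a, -b, by push_cast; linarith, by push_cast; linarith⟩

theorem Conj.inv {x u v : ℝ} {t : ℚ} (ht : x ^ 2 = t) (h : Conj x u v) (hu : u ≠ 0) (hv : v ≠ 0) :
    Conj x (1 / u) (1 / v) := by
  obtain ⟨a, b, h1, h2⟩ := h
  have h3 : ((a : ℝ) ^ 2 - b ^ 2 * t) = u * v := by rw [h1, h2, ← ht]; ring
  refine ⟨a / (a ^ 2 - b ^ 2 * t), -b / (a ^ 2 - b ^ 2 * t), ?_, ?_⟩ <;> push_cast <;> rw [h3] <;>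
    field_simp <;> linarith

theorem cf_sh (b : ℕ → ℕ+) (k : ℕ) :
    (cf fun j => b (k + j)) = 1 / (((b k : ℕ) : ℝ) + cf fun j => b (k + 1 + j)) := by
  rw [cf_eq]
  simp only [add_zero, add_assoc, add_comm 1]

theorem back (P : ℕ → Prop) (h : ∀ j, P (j + 1) → P j) (N : ℕ) : P N → P 0 := by
  induction N with
  | zero => exact id
  | succ N ih => exact fun h' => ih (h N h')

/-- Galois: a reduced eventually periodic continued fraction is purely periodic -/
theorem coreA {x : ℝ} {t : ℚ} (hx : Irrational x) (ht : x ^ 2 = t) {b : ℕ → ℕ+} {N p : ℕ}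
    (hper : ∀ k, b (N + k + p) = b (N + k)) {y : ℕ → ℝ} (hy : ∀ k, 0 < y k ∧ y k < 1)
    (hrec : ∀ k, y (k + 1) = 1 / ((b k : ℕ) + y k)) (hc : Conj x (cf b) (-1 / y 0)) :
    (∀ k, b (k + p) = b k) ∧ y p = y 0 := by
  have h1 : ∀ k, Conj x (cf fun j => b (k + j)) (-1 / y k) := by
    intro k
    induction k with
    | zero => simpa using hc
    | succ k ih =>
      have h0 := (hy k).1
      have := (ih.inv ht (cf_pos _).ne' (div_ne_zero (by norm_num) h0.ne')).sub (b k)
      rw [cf_sh, one_div_one_div, add_sub_cancel_left] at this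
      convert this using 1
      rw [hrec]
      field_simp
      ring
  have h2 : y (N + p) = y N := by
    have e : (fun j => b (N + p + j)) = fun j => b (N + j) := funext fun j => by
      rw [← hper j, add_right_comm]
    have h3 := (e ▸ h1 (N + p)).unique hx (h1 N)
    have := (hy N).1
    have := (hy (N + p)).1
    field_simp at h3
    linarith
  have := back (fun j => (∀ k, b (j + k + p) = b (j + k)) ∧ y (j + p) = y j) ?_ N ⟨hper, h2⟩
  · simpa using this
  rintro j ⟨h3, h4⟩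
  rw [add_right_comm, hrec, hrec, one_div, one_div, inv_inj] at h4
  obtain ⟨h5, h6⟩ := digit_eq (hy _) (hy _) h4
  refine ⟨fun k => ?_, h6⟩
  rcases k with _ | k
  · exact h5
  · simpa only [add_assoc, add_comm 1] using h3 k

/-- `b` is eventually periodic, and is the future of a two-sided sequence with values `≤ x` -/
def Good (x : ℝ) (b : ℕ → ℕ+) : Prop :=
  ∃ N p : ℕ, 0 < p ∧ (∀ k, b (N + k + p) = b (N + k)) ∧ ∃ y : ℕ → ℝ, (∀ k, 0 < y k ∧ y k < 1) ∧
    (∀ k, y (k + 1) = 1 / ((b (N + k) : ℕ) + y k)) ∧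
    ∀ k, (b (N + k) : ℕ) + (cf fun j => b (N + k + 1 + j)) + y k ≤ x

theorem Good.shift {x : ℝ} {b c : ℕ → ℕ+} (h : Good x b) (s s' : ℕ)
    (hc : ∀ k, c (k + s) = b (k + s')) : Good x c := by
  obtain ⟨N, p, hp, h1, y, h2, h3, h4⟩ := h
  have e : ∀ k, c (N + s + k) = b (N + (s' + k)) := fun k => by
    rw [add_right_comm, hc, add_assoc, add_comm k]
  refine ⟨N + s, p, hp, fun k => ?_, fun k => y (s' + k), fun k => h2 _, fun k => ?_, fun k => ?_⟩
  · rw [add_assoc, e, e, ← add_assoc s', ← add_assoc N, h1]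
  · rw [e, ← h3, add_assoc]
  · have := h4 (s' + k)
    simp only [add_assoc] at this e ⊢
    simpa only [e] using this

theorem boundA {x z : ℝ} {t : ℚ} (hx : Irrational x) (ht : x ^ 2 = t) {b : ℕ → ℕ+}
    (h : Good x b) (hc : Conj x (cf b) z) (hz : z < -1) : cf b - z ≤ x := by
  obtain ⟨N, p, hp, h1, y, h2, h3, h4⟩ := h
  let w : ℕ → ℝ := fun k => Nat.rec (-1 / z) (fun k u => 1 / ((b k : ℕ) + u)) k
  have hw : ∀ k, w (k + 1) = 1 / ((b k : ℕ) + w k) := fun _ => rfl
  have hw0 : w 0 = -1 / z := rfl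
  have hz0 : z ≠ 0 := (by linarith : z < 0).ne
  have hw1 : ∀ k, 0 < w k ∧ w k < 1 := by
    intro k
    induction k with
    | zero =>
      rw [hw0]
      exact ⟨div_pos_of_neg_of_neg (by norm_num) (by linarith),
        by rw [div_lt_one_of_neg (by linarith)]; linarith⟩
    | succ k ih =>
      have := one_le_d (b k)
      have := ih.1
      rw [hw]
      exact ⟨by positivity, by rw [div_lt_one (by positivity)]; linarith⟩
  have e0 : -1 / w 0 = z := by rw [hw0]; field_simp
  obtain ⟨h5, h6⟩ := coreA hx ht h1 hw1 hw (e0 ▸ hc)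
  have h7 : Function.Periodic w p := fun k => by
    induction k with
    | zero => simpa using h6
    | succ k ih => rw [add_right_comm, hw, hw, h5, ih]
  refine le_of_forall_pos_le_add fun ε hε => ?_
  obtain ⟨n, hn⟩ := exists_pow_lt_of_lt_one (half_pos hε) (by norm_num : (1 / 2 : ℝ) < 1)
  obtain ⟨i, hi⟩ := Nat.exists_eq_add_of_le (Nat.le_mul_of_pos_right (N + n + 1) hp)
  have h8 := orbit_close (b := fun k => b (N + k)) (y' := fun k => w (N + k)) h2
    (fun k => hw1 _) h3 (fun k => hw _) (n + i)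
  have h9 : (1 / 2 : ℝ) ^ (n + i) ≤ (1 / 2) ^ n :=
    pow_le_pow_of_le_one (by norm_num) (by norm_num) (by omega)
  have h10 := h4 (n + i)
  have e1 : N + (n + i) + 1 = (N + n + 1) * p := by omega
  have e2 : (fun j => b (N + (n + i) + 1 + j)) = b := funext fun j => by
    rw [e1, add_comm]
    exact (show Function.Periodic b p from h5).nat_mul _ j
  have e3 : w (N + (n + i) + 1) = w 0 := by
    rw [e1]
    simpa using h7.nat_mul (N + n + 1) 0
  rw [hw] at e3
  rw [← e3, neg_div, one_div_one_div] at e0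
  rw [e2] at h10
  linarith [(abs_le.1 h8).1]

theorem bound {x z : ℝ} {t : ℚ} (hx : Irrational x) (ht : x ^ 2 = t) (h2 : 2 ≤ x) {b : ℕ → ℕ+}
    (h : Good x b) (hc : Conj x (cf b) z) : |cf b - z| ≤ x := by
  have h0 := cf_pos b
  have h1 := cf_lt_one b
  rw [abs_le]
  constructor
  · by_contra h3
    obtain ⟨c, hc1, hc2⟩ : ∃ c, Good x c ∧ cf c = 1 - cf b := by
      have h4 := cf_pos fun k => b (k + 1)
      have h5 := cf_pos fun k => b (k + 1 + 1)
      have h6 := one_le_d (b 1)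
      rcases (show (b 0 : ℕ) = 1 ∨ 1 < (b 0 : ℕ) by have := (b 0).pos; omega) with h7 | h7
      · refine ⟨fun k => Nat.casesOn k (b 1 + 1) fun k => b (k + 1 + 1),
          h.shift 1 2 fun _ => rfl, ?_⟩
        rw [cf_eq, cf_eq b, cf_eq fun k => b (k + 1), h7]
        simp only [Nat.rec_zero]
        push_cast
        field_simp
        ring
      · obtain ⟨m, hm⟩ : ∃ m : ℕ+, (b 0 : ℕ) = m + 1 := ⟨⟨b 0 - 1, by omega⟩, by simp; omega⟩
        refine ⟨fun k => Nat.casesOn k 1 fun k => Nat.casesOn k m fun k => b (k + 1),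
          h.shift 2 1 fun _ => rfl, ?_⟩
        have := one_le_d m
        rw [cf_eq, cf_eq, cf_eq b, hm]
        simp only [Nat.rec_zero]
        push_cast
        field_simp
        ring
    linarith [boundA hx ht hc1 (hc2 ▸ hc.refl) (by linarith)]
  · by_contra h3
    exact h3 (boundA hx ht h hc (by linarith))

end Pool.Agent.Lib.MP_675cd9_nt
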