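import Mathlib

set_option autoImplicit false

namespace Pool.Agent.Lib.MP_675cd9_nt

/-- the finite continued fraction `[0; b 0, …, b (n - 1)]` -/
noncomputable def cfFin : ℕ → (ℕ → ℕ+) → ℝ
  | 0, _ => 0
  | n + 1, b => 1 / (((b 0 : ℕ) : ℝ) + cfFin n fun k => b (k + 1))

/-- the continued fraction `[0; b 0, b 1, …]` -/
noncomputable def cf (b : ℕ → ℕ+) : ℝ := Filter.atTop.limUnder fun n => cfFin n b

/-- `λ_n(θ) = a_n + [0; a_(n+1), a_(n+2), …] + [0; a_(n-1), a_(n-2), …]` -/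
noncomputable def lam (θ : ℤ → ℕ+) (n : ℤ) : ℝ :=
  ((θ n : ℕ) : ℝ) + cf (fun k => θ (n + 1 + k)) + cf fun k => θ (n - 1 - k)

/-- the Markov spectrum: the finite values of `sup_n λ_n(θ)` -/
def markov : Set ℝ := {x | ∃ θ : ℤ → ℕ+, IsLUB (Set.range (lam θ)) x}

/-- the Lagrange spectrum: the finite values of `limsup_(n → ∞) λ_n(θ)` -/
def lagrange : Set ℝ :=
  {x | ∃ θ : ℤ → ℕ+, Filter.atTop.IsBoundedUnder (· ≤ ·) (lam θ) ∧ Filter.atTop.limsup (lam θ) = x}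

/-- `θ` is periodic -/
def Per (θ : ℤ → ℕ+) : Prop := ∃ p : ℕ, 0 < p ∧ ∀ n, θ (n + p) = θ n

/-- `θ` is eventually periodic to the right -/
def EvPer (θ : ℤ → ℕ+) : Prop := ∃ (N : ℤ) (p : ℕ), 0 < p ∧ ∀ n ≥ N, θ (n + p) = θ n

/-- `sup_n λ_n(θ) = λ_0(θ) = x` -/
def Top (θ : ℤ → ℕ+) (x : ℝ) : Prop := lam θ 0 = x ∧ ∀ n, lam θ n ≤ x

end Pool.Agent.Lib.MP_675cd9_nt
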