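import Pool.Agent.Lib.MP_675cd9_nt.Lim

set_option autoImplicit false

namespace Pool.Agent.Lib.MP_675cd9_nt

open Filter Topology

theorem Per.neg {φ : ℤ → ℕ+} (h : Per φ) : Per fun n => φ (-n) := by
  obtain ⟨p, hp, h⟩ := h
  exact ⟨p, hp, fun n => by beta_reduce; rw [← h, neg_add, neg_add_cancel_right]⟩

theorem Top.neg {φ : ℤ → ℕ+} {x : ℝ} (h : Top φ x) : Top (fun n => φ (-n)) x :=
  ⟨by rw [lam_neg, neg_zero, h.1], fun n => by rw [lam_neg]; exact h.2 _⟩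

theorem top_per {x : ℝ} (hL : x ∈ lagrange) (h : x ∉ derivedSet lagrange)
    (hB : ∀ θ, Top θ x → EvPer θ) {θ : ℤ → ℕ+} (hθ : Top θ x) : Per θ := by
  obtain ⟨s, h1, h2⟩ := hL
  obtain ⟨P, -, h3⟩ := tail_per h
  obtain ⟨⟨φ, ⟨p, hp, h4⟩, h5, -⟩, -⟩ := h3 s h1 h2
  obtain ⟨h6, t, h7⟩ := per_val hp h4
  obtain ⟨N, p, hp, h8⟩ := hB θ hθ
  obtain ⟨M, q, hq, h9⟩ := hB _ hθ.neg
  rw [h5, ← hθ.1] at h6 h7
  exact rigid (M := -M) hp hq h8 (fun n hn => by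
    simpa only [neg_add, neg_neg, sub_eq_add_neg] using h9 (-n) (by omega)) (hθ.1 ▸ hθ.2) h6 h7

theorem typeA {x : ℝ} (hB : ∀ θ, Top θ x → Per θ) (U : Ultrafilter ℝ)
    (hU : ↑U ≤ 𝓝[≠] x ⊓ 𝓟 markov) : (∀ᶠ y in U, y < x) ∧ ∃ φ η ζ : ℤ → ℕ+, Per φ ∧ Top φ x ∧
      (∀ n, lam η n ≤ x) ∧ (∀ n ≤ 0, η n = φ n) ∧ η ≠ φ ∧
      (∀ n, lam ζ n ≤ x) ∧ (∀ n ≥ 0, ζ n = φ n) ∧ ζ ≠ φ := by
  choose! θ hθ using fun y (h : y ∈ markov) => attained h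
  have h1 : ∀ᶠ y in U, Top (θ y) y :=
    Eventually.mono (le_principal_iff.1 (hU.trans inf_le_right)) hθ
  have h2 : Tendsto (fun y => y) U (𝓝 x) := (hU.trans inf_le_left).trans nhdsWithin_le_nhds
  have h3 : ∀ᶠ y in U, y ≠ x := (hU.trans inf_le_left) self_mem_nhdsWithin
  obtain ⟨φ, h4⟩ := ulim U (θ := θ) (D := x + 1) fun n => by
    filter_upwards [h1, h2.eventually (eventually_le_nhds (lt_add_one x))] with k hk hk'
    exact (hk.2 n).trans hk'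
  have h5 : Top φ x := ⟨tendsto_nhds_unique (tend_lam h4 0)
    (h2.congr' (h1.mono fun y hy => hy.1.symm)),
    fun n => le_of_tendsto_of_tendsto (tend_lam h4 n) h2 (h1.mono fun y hy => hy.2 n)⟩
  have h6 := hB φ h5
  obtain ⟨a1, a2⟩ := one_side U h2 (h1.mono fun y hy => hy.2) h6 h5.1 h4
  obtain ⟨b1, b2⟩ := one_side U (θ := fun y n => θ y (-n)) h2 (h1.mono fun y hy => hy.neg.2) h6.neg
    h5.neg.1 fun n => h4 (-n)
  have h7 : ∀ᶠ y in U, y < x := by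
    filter_upwards [h1, h3, a1, b1, h4 0] with y c1 c2 c3 c4 c5
    refine lt_of_le_of_ne ?_ c2
    simp only [neg_add', neg_zero] at c4
    have c6 := c1.1
    rw [lam, c5] at c6
    rw [← h5.1, lam]
    linarith
  have h8 : ¬∀ᶠ y in U, x ≤ y := fun h => by
    obtain ⟨y, c1, c2⟩ := (h.and h7).exists
    linarith
  obtain ⟨η, c1, c2, c3⟩ := a2.resolve_left h8
  obtain ⟨ζ, d1, d2, d3⟩ := b2.resolve_left h8
  refine ⟨h7, φ, η, fun n => ζ (-n), h6, h5, c1, c2, c3, fun n => ?_, fun n hn => ?_, fun h => ?_⟩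
  · rw [lam_neg]; exact d1 _
  · simpa using d2 (-n) (by omega)
  · exact d3 (funext fun n => by simpa using congrFun h (-n))

theorem typeB {x : ℝ} (h : x ∉ derivedSet lagrange) {θ : ℤ → ℕ+} (h1 : Top θ x) (h2 : ¬EvPer θ) :
    atTop.limsup (lam θ) < x ∧ ∃ δ > 0, ∃ R : ℕ, ∀ s : ℤ → ℕ+, (∀ n, lam s n < x + δ) →
      ∀ a b : ℤ, a + R < b → (∀ i : ℤ, |i| ≤ R → s (a + i) = θ i) →
        ¬∀ i : ℤ, |i| ≤ R → s (b + i) = θ i := by
  constructor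
  · obtain ⟨P, hP, h3⟩ := tail_per h
    refine lt_of_le_of_ne (limsup_le_of_le (isCoboundedUnder_le_of_le _ (x := 0) fun n =>
      (Nat.cast_nonneg _).trans (digit_lt θ n).le) (.of_forall h1.2)) fun h4 => ?_
    obtain ⟨-, N, h5⟩ := h3 θ (isBoundedUnder_of ⟨_, h1.2⟩) h4
    exact h2 ⟨N, P, hP, h5⟩
  obtain ⟨δ, hδ, r, P, hP, hr, h⟩ := noret h
  obtain ⟨n, hn, h3⟩ : ∃ n ≥ 0, θ (n + P) ≠ θ n := by
    by_contra! h3
    exact h2 ⟨0, P, hP, h3⟩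
  refine ⟨δ, hδ, r + P + n.natAbs, fun s h4 a b h5 h6 h7 => h3 ?_⟩
  have w : Win r s a θ 0 := fun i _ _ => by rw [h6 i (by rw [abs_le]; omega), zero_add]
  rw [← h6 _ (by rw [abs_le]; omega), ← h6 n (by rw [abs_le]; omega), ← add_assoc]
  exact (h s a b (by omega) (fun i _ _ => by
    rw [h6 i (by rw [abs_le]; omega), h7 i (by rw [abs_le]; omega)]) (fun n _ => h4 n)
    (by linarith [(abs_le.1 (lam_close w)).1, h1.1])).2 _ (by omega) (by omega)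

end Pool.Agent.Lib.MP_675cd9_nt
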