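import Pool.Agent.Lib.MP_675cd9_nt.Main

set_option autoImplicit false

namespace Pool.Agent.Lib.MP_675cd9_nt

open Filter Topology

theorem cf_close (r : ℕ) : ∀ b c : ℕ → ℕ+, (∀ k < r, b k = c k) →
    |cf b - cf c| ≤ 2 * (1 / 2) ^ r := by
  induction r using Nat.twoStepInduction with
  | zero =>
    intro b c _
    rw [abs_le]
    constructor <;> linarith [cf_pos b, cf_pos c, cf_lt_one b, cf_lt_one c]
  | one =>
    intro b c _
    rw [abs_le]
    constructor <;> linarith [cf_pos b, cf_pos c, cf_lt_one b, cf_lt_one c]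
  | more r ih _ =>
    intro b c h
    have h1 := ih (fun k => b (k + 1 + 1)) (fun k => c (k + 1 + 1)) fun k hk => h _ (by omega)
    rw [cf_eq b, cf_eq c, cf_eq fun k => b (k + 1), cf_eq fun k => c (k + 1), h 0 (by omega),
      h (0 + 1) (by omega)]
    refine (step2 (one_le_d _) (one_le_d _) (cf_nonneg _) (cf_nonneg _)).trans ?_
    rw [pow_add]
    linarith

/-- equal windows of radius `r` -/
def Win (r : ℕ) (s : ℤ → ℕ+) (n : ℤ) (t : ℤ → ℕ+) (m : ℤ) : Prop :=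
  ∀ i : ℤ, -r ≤ i → i ≤ r → s (n + i) = t (m + i)

theorem lam_close {r : ℕ} {s t : ℤ → ℕ+} {n m : ℤ} (h : Win r s n t m) :
    |lam s n - lam t m| ≤ 4 * (1 / 2) ^ r := by
  have h0 : s n = t m := by simpa using h 0 (by omega) (by omega)
  have h1 := cf_close r (fun k => s (n + 1 + k)) (fun k => t (m + 1 + k)) fun k hk => by
    simpa only [add_assoc] using h (1 + k) (by omega) (by omega)
  have h2 := cf_close r (fun k => s (n - 1 - k)) (fun k => t (m - 1 - k)) fun k hk => by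
    simpa only [sub_eq_add_neg, add_assoc] using h (-1 - k) (by omega) (by omega)
  rw [lam, lam, h0]
  rw [abs_le] at *
  constructor <;> linarith [h1.1, h1.2, h2.1, h2.2]

theorem small {δ : ℝ} (h : 0 < δ) : ∃ r : ℕ, 4 * (1 / 2 : ℝ) ^ r < δ := by
  obtain ⟨r, hr⟩ := exists_pow_lt_of_lt_one (by positivity : 0 < δ / 4) (by norm_num : (1 / 2 : ℝ) < 1)
  exact ⟨r, by linarith⟩

theorem le_of_close {u v : ℝ} (h : ∀ r : ℕ, u ≤ v + 4 * (1 / 2) ^ r) : u ≤ v :=
  le_of_forall_pos_le_add fun ε hε => by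
    obtain ⟨r, hr⟩ := small hε
    linarith [h r]

theorem lam_shift (θ : ℤ → ℕ+) (a n : ℤ) : lam (fun m => θ (m + a)) n = lam θ (n + a) := by
  simp only [lam, add_right_comm _ a, add_sub_right_comm _ a]

theorem digit_lt (θ : ℤ → ℕ+) (n : ℤ) : ((θ n : ℕ) : ℝ) < lam θ n := by
  rw [lam]
  linarith [cf_pos fun k => θ (n + 1 + k), cf_pos fun k => θ (n - 1 - k)]

theorem per_mul {α : Type} {f : ℤ → α} {p : ℕ} (h : ∀ n, f (n + p) = f n) (k n : ℤ) :
    f (n + k * p) = f n := (show Function.Periodic f (p : ℤ) from h).int_mul k n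

theorem lam_per {s : ℤ → ℕ+} {p : ℕ} (h : ∀ n, s (n + p) = s n) (n : ℤ) :
    lam s (n + p) = lam s n := by rw [← lam_shift, funext h]

theorem per_mem {s : ℤ → ℕ+} {p : ℕ} (hp : 0 < p) (h : ∀ n, s (n + p) = s n) (a : ℤ) :
    ∃ j, a ≤ j ∧ j < a + p ∧ (∀ n, lam s n ≤ lam s j) ∧ lam s j ∈ lagrange := by
  obtain ⟨j, hj, h1⟩ := (Finset.Ico a (a + p)).exists_max_image (lam s) ⟨a, by simpa using hp⟩
  rw [Finset.mem_Ico] at hj
  have h2 : ∀ n, lam s n ≤ lam s j := fun n => by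
    have h3 := Int.emod_nonneg (n - a) (by omega : (p : ℤ) ≠ 0)
    have h4 := Int.emod_lt_of_pos (n - a) (by omega : (0 : ℤ) < p)
    have h5 := Int.emod_add_ediv_mul (n - a) p
    rw [show n = a + (n - a) % p + (n - a) / p * p by omega, per_mul (lam_per h)]
    exact h1 _ (Finset.mem_Ico.2 ⟨by omega, by omega⟩)
  have h3 : atTop.IsBoundedUnder (· ≤ ·) (lam s) := isBoundedUnder_of ⟨_, h2⟩
  refine ⟨j, hj.1, hj.2, h2, s, h3, le_antisymm ?_ ?_⟩
  · exact limsup_le_of_le (isCoboundedUnder_le_of_le _ (x := 0) fun n =>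
      (Nat.cast_nonneg _).trans (digit_lt s n).le) (.of_forall h2)
  · refine le_limsup_of_frequently_le (frequently_atTop.2 fun N => ⟨j + |N - j| * p, ?_, ?_⟩) h3
    · nlinarith [le_abs_self (N - j), abs_nonneg (N - j), (by omega : (1 : ℤ) ≤ p)]
    · rw [per_mul (lam_per h)]

theorem closing {r T : ℕ} {s : ℤ → ℕ+} {a : ℤ} (hT : r < T) (h : Win r s a s (a + T)) :
    ∃ c : ℤ → ℕ+, (∀ n, c (n + T) = c n) ∧ ∀ n, a - r ≤ n → n ≤ a + T + r → c n = s n := by
  have h1 : ∀ n, s (a + (n + T - a) % T) = s (a + (n - a) % T) := fun n => by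
    rw [add_sub_right_comm, Int.add_emod_right]
  have h2 : ∀ n, a ≤ n → n < a + T → s (a + (n - a) % T) = s n := fun n h3 h4 => by
    rw [Int.emod_eq_of_lt (by omega) (by omega), add_sub_cancel]
  refine ⟨fun n => s (a + (n - a) % T), h1, fun n h3 h4 => ?_⟩
  beta_reduce
  rcases lt_or_ge n a with h5 | h5
  · rw [← h1, h2 _ (by omega) (by omega)]
    convert (h (n - a) (by omega) (by omega)).symm using 2 <;> ring
  rcases lt_or_ge n (a + T) with h6 | h6
  · exact h2 n h5 h6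
  · have h7 := h1 (n - T)
    rw [sub_add_cancel, h2 (n - T) (by omega) (by omega)] at h7
    rw [h7]
    convert h (n - a - T) (by omega) (by omega) using 2 <;> ring

theorem closing_val {x δ : ℝ} (iso : ∀ y ∈ lagrange, |y - x| < 2 * δ → y = x) {r T : ℕ}
    (hr : 4 * (1 / 2 : ℝ) ^ r < δ) {s : ℤ → ℕ+} {a j : ℤ} (hT : r < T) (h : Win r s a s (a + T))
    (h1 : ∀ n, a ≤ n → lam s n < x + δ) (h2 : a ≤ j) (h3 : j < a + T) (h4 : x - δ < lam s j) :
    ∃ c : ℤ → ℕ+, (∀ n, c (n + T) = c n) ∧ (∀ n, a - r ≤ n → n ≤ a + T + r → c n = s n) ∧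
      ∃ i, Top (fun m => c (m + i)) x := by
  obtain ⟨c, hc1, hc2⟩ := closing hT h
  obtain ⟨i, h5, h6, h7, h8⟩ := per_mem (by omega) hc1 a
  have w : ∀ n, a ≤ n → n < a + T → |lam c n - lam s n| ≤ 4 * (1 / 2) ^ r := fun n h9 h10 =>
    lam_close fun i h11 h12 => hc2 _ (by omega) (by omega)
  have e : lam c i = x := iso _ h8 (abs_lt.2 ⟨by linarith [h7 j, (abs_le.1 (w j h2 h3)).1],
    by linarith [h1 i h5, (abs_le.1 (w i h5 h6)).2]⟩)
  exact ⟨c, hc1, hc2, i, by rw [lam_shift, zero_add, e], fun n => by rw [lam_shift, ← e]; exact h7 _⟩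

theorem top_le {x δ : ℝ} (iso : ∀ y ∈ lagrange, |y - x| < 2 * δ → y = x) {r : ℕ}
    (hr : 4 * (1 / 2 : ℝ) ^ r < δ) {s t : ℤ → ℕ+} (hs : Per s) (ht : Per t) (hs' : Top s x)
    (ht' : Top t x) (h : Win r s 0 t 0) :
    (cf fun k => t (0 + 1 + k)) ≤ cf fun k => s (0 + 1 + k) := by
  obtain ⟨p, hp, hs⟩ := hs
  obtain ⟨q, hq, ht⟩ := ht
  obtain ⟨σ, h1, h2⟩ : ∃ σ : ℤ → ℕ+, (∀ n : ℤ, n ≤ r → σ n = s n) ∧ ∀ n : ℤ, -r ≤ n → σ n = t n :=
    ⟨fun n => if n ≤ r then s n else t n, fun n hn => if_pos hn, fun n hn => by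
      beta_reduce
      split_ifs with h'
      exacts [by simpa using h n hn h', rfl]⟩
  have w1 : ∀ n ≤ 0, Win r σ n s n := fun n hn i _ _ => h1 _ (by omega)
  have w2 : ∀ n ≥ 0, Win r σ n t n := fun n hn i _ _ => h2 _ (by omega)
  have h3 : lam σ 0 ≤ x := le_of_close fun m => by
    obtain ⟨T, hT, hT'⟩ : ∃ T : ℕ, T = (m + r + 1) * (p * q) ∧ m + r + 1 ≤ T :=
      ⟨_, rfl, Nat.le_mul_of_pos_right _ (Nat.mul_pos hp hq)⟩
    obtain ⟨c, -, h4, i, h5⟩ := closing_val iso hr (s := σ) (a := -T) (T := 2 * T) (j := 0)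
      (by omega) (fun i h4 h5 => by
        rw [h1 _ (by omega), h2 _ (by omega), ← per_mul hs ((m + r + 1) * q),
          ← per_mul ht (-((m + r + 1) * p)) (_ + i)]
        convert h i h4 h5 using 2 <;> rw [hT] <;> push_cast <;> ring)
      (fun n _ => by
        rcases le_total n 0 with hn | hn
        · linarith [(abs_le.1 (lam_close (w1 n hn))).2, hs'.2 n]
        · linarith [(abs_le.1 (lam_close (w2 n hn))).2, ht'.2 n]) (by omega) (by omega)
      (by linarith [(abs_le.1 (lam_close (w1 0 le_rfl))).1, hs'.1])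
    have h6 := h5.2 (-i)
    rw [lam_shift, neg_add_cancel] at h6
    have h7 : Win m c 0 σ 0 := fun i _ _ => h4 _ (by omega) (by omega)
    linarith [(abs_le.1 (lam_close h7)).1]
  rw [← hs'.1, lam, lam, h1 0 (by omega), funext fun k : ℕ => h1 (0 - 1 - k) (by omega),
    funext fun k : ℕ => h2 (0 + 1 + k) (by omega)] at h3
  linarith

theorem ext_cf {s t : ℤ → ℕ+} (h0 : s 0 = t 0)
    (h1 : (cf fun k => s (0 + 1 + k)) = cf fun k => t (0 + 1 + k))
    (h2 : (cf fun k => s (0 - 1 - k)) = cf fun k => t (0 - 1 - k)) : s = t := by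
  ext1 n
  rcases lt_trichotomy n 0 with hn | rfl | hn
  · convert cf_inj h2 (-n - 1).toNat using 2 <;> omega
  · exact h0
  · convert cf_inj h1 (n - 1).toNat using 2 <;> omega

theorem digits_finite (x : ℝ) : {d : ℕ+ | ((d : ℕ) : ℝ) ≤ x}.Finite :=
  ((Set.finite_Iic ⌊x⌋₊).preimage PNat.coe_injective.injOn).subset fun _ hd => Nat.le_floor hd

theorem common {x δ : ℝ} (iso : ∀ y ∈ lagrange, |y - x| < 2 * δ → y = x) {r : ℕ}
    (hr : 4 * (1 / 2 : ℝ) ^ r < δ) :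
    ∃ P : ℕ, 0 < P ∧ ∀ s, Per s → Top s x → ∀ n, s (n + P) = s n := by
  have hfin : {s | Per s ∧ Top s x}.Finite := by
    refine Set.Finite.of_injOn (f := fun s (i : Set.Icc (-r : ℤ) r) => s i) ?_ ?_
      (Set.Finite.pi' fun _ => digits_finite x)
    · exact fun s hs i => (digit_lt s i).le.trans (hs.2.2 i)
    · intro s hs t ht h
      have w : Win r s 0 t 0 := fun i h1 h2 => by simpa using congrFun h ⟨i, h1, h2⟩
      have h0 : s 0 = t 0 := by simpa using w 0 (by omega) (by omega)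
      have h1 := le_antisymm (top_le iso hr ht.1 hs.1 ht.2 hs.2 fun i h1 h2 => (w i h1 h2).symm)
        (top_le iso hr hs.1 ht.1 hs.2 ht.2 w)
      refine ext_cf h0 h1 ?_
      have h2 := hs.2.1.trans ht.2.1.symm
      rw [lam, lam, h0, h1] at h2
      linarith
  choose! p hp hp' using fun s (h : Per s) => h
  refine ⟨∏ s ∈ hfin.toFinset, p s, Finset.prod_pos fun s hs => hp s (hfin.mem_toFinset.1 hs).1,
    fun s h1 h2 n => ?_⟩
  obtain ⟨k, hk⟩ := Finset.dvd_prod_of_mem p (hfin.mem_toFinset.2 ⟨h1, h2⟩)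
  rw [hk, Nat.cast_mul, mul_comm, per_mul (hp' s h1)]

theorem noret {x : ℝ} (h : x ∉ derivedSet lagrange) : ∃ δ > 0, ∃ r P : ℕ, 0 < P ∧
    4 * (1 / 2 : ℝ) ^ r < δ ∧ ∀ (s : ℤ → ℕ+) (a b : ℤ), a + r < b → Win r s a s b →
      (∀ n, a ≤ n → lam s n < x + δ) → x - δ < lam s a →
        (∃ φ, Per φ ∧ Top φ x) ∧ ∀ n, a ≤ n → n + P ≤ b → s (n + P) = s n := by
  obtain ⟨δ, hδ, iso⟩ : ∃ δ > 0, ∀ y ∈ lagrange, |y - x| < 2 * δ → y = x := by
    rw [mem_derivedSet, accPt_iff_frequently, not_frequently, Metric.eventually_nhds_iff] at h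
    obtain ⟨ε, hε, h⟩ := h
    refine ⟨ε / 2, half_pos hε, fun y hy h1 => ?_⟩
    by_contra h2
    exact h (by rw [Real.dist_eq]; linarith) ⟨h2, hy⟩
  obtain ⟨r, hr⟩ := small hδ
  obtain ⟨P, hP, hc⟩ := common iso hr
  refine ⟨δ, hδ, r, P, hP, hr, fun s a b h1 h2 h3 h4 => ?_⟩
  obtain ⟨T, rfl⟩ : ∃ T : ℕ, b = a + T := ⟨(b - a).toNat, by omega⟩
  obtain ⟨c, h5, h6, i, h7⟩ := closing_val iso hr (by omega) h2 h3 le_rfl (by omega) h4
  have h8 : Per fun m => c (m + i) := ⟨T, by omega, fun n => by beta_reduce; rw [add_right_comm, h5]⟩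
  refine ⟨⟨_, h8, h7⟩, fun n h9 h10 => ?_⟩
  have h11 := hc _ h8 h7 (n - i)
  rw [add_right_comm, sub_add_cancel] at h11
  rw [← h6 _ (by omega) (by omega), ← h6 _ (by omega) (by omega), h11]

end Pool.Agent.Lib.MP_675cd9_nt
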