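import Pool.Agent.Lib.MP_675cd9_nt.Iso

set_option autoImplicit false

namespace Pool.Agent.Lib.MP_675cd9_nt

open Filter Topology

theorem ulim {ι : Type} (U : Ultrafilter ι) {θ : ι → ℤ → ℕ+} {D : ℝ}
    (h : ∀ n, ∀ᶠ k in U, lam (θ k) n ≤ D) : ∃ η : ℤ → ℕ+, ∀ n, ∀ᶠ k in U, θ k n = η n := by
  have : ∀ n, ∃ d, ∀ᶠ k in U, θ k n = d := fun n => by
    obtain ⟨d, -, hd⟩ := (U.map fun k => θ k n).eq_pure_of_finite_mem (digits_finite D)
      ((h n).mono fun k hk => (digit_lt _ n).le.trans hk)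
    exact ⟨d, show {d} ∈ U.map fun k => θ k n from hd ▸ rfl⟩
  exact ⟨fun n => (this n).choose, fun n => (this n).choose_spec⟩

theorem ev_win {ι : Type} {U : Filter ι} {θ : ι → ℤ → ℕ+} {η : ℤ → ℕ+}
    (h : ∀ n, ∀ᶠ k in U, θ k n = η n) (r : ℕ) (n : ℤ) : ∀ᶠ k in U, Win r (θ k) n η n :=
  ((eventually_all_finite (Set.finite_Icc (-r : ℤ) r)).2 fun i _ => h (n + i)).mono
    fun _ hk i h1 h2 => hk i ⟨h1, h2⟩

theorem tend_lam {ι : Type} {U : Filter ι} {θ : ι → ℤ → ℕ+} {η : ℤ → ℕ+}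
    (h : ∀ n, ∀ᶠ k in U, θ k n = η n) (n : ℤ) : Tendsto (fun k => lam (θ k) n) U (𝓝 (lam η n)) :=
  Metric.tendsto_nhds.2 fun ε hε => by
    obtain ⟨r, hr⟩ := small hε
    exact (ev_win h r n).mono fun k hk => (lam_close hk).trans_lt hr

theorem tail_per {x : ℝ} (h : x ∉ derivedSet lagrange) : ∃ P : ℕ, 0 < P ∧ ∀ θ : ℤ → ℕ+,
    atTop.IsBoundedUnder (· ≤ ·) (lam θ) → atTop.limsup (lam θ) = x →
      (∃ φ, Per φ ∧ Top φ x) ∧ ∃ N, ∀ n ≥ N, θ (n + P) = θ n := by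
  obtain ⟨δ, hδ, r, P, hP, -, h⟩ := noret h
  refine ⟨P, hP, fun θ h1 h2 => ?_⟩
  obtain ⟨N, hN⟩ := eventually_atTop.1 (eventually_lt_of_limsup_lt (by linarith : _ < x + δ) h1)
  have h3 := frequently_lt_of_lt_limsup (isCoboundedUnder_le_of_le atTop (x := 0) fun n =>
    (Nat.cast_nonneg _).trans (digit_lt θ n).le) (by linarith : x - δ < _)
  obtain ⟨U, hU⟩ := Ultrafilter.exists_le _ (h := frequently_iff_neBot.1 h3)
  have h4 : ∀ M : ℤ, ∀ᶠ k in (U : Filter ℤ), M ≤ k := fun M => (hU.trans inf_le_left) (eventually_ge_atTop M)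
  obtain ⟨η, h5⟩ := ulim U (θ := fun k m => θ (m + k)) (D := x + δ) fun n =>
    (h4 (N - n)).mono fun k hk => by rw [lam_shift]; exact (hN _ (by omega)).le
  have h6 := ev_win h5 r 0
  obtain ⟨a, ⟨a1, a2⟩, a3⟩ := (((h4 N).and h6).and (le_principal_iff.1 (hU.trans inf_le_right))).exists
  have h7 : ∀ M, ∃ b, M ≤ b ∧ Win r θ a θ b := fun M => by
    obtain ⟨b, b1, b2⟩ := ((h4 M).and h6).exists
    exact ⟨b, b1, fun i h7 h8 => by
      simpa only [zero_add, add_comm i] using (a2 i h7 h8).trans (b2 i h7 h8).symm⟩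
  obtain ⟨b, b1, b2⟩ := h7 (a + r + 1)
  refine ⟨(h θ a b b1 b2 (fun n hn => hN n (by omega)) a3).1, a, fun n hn => ?_⟩
  obtain ⟨b, b1, b2⟩ := h7 (n + r + P)
  exact (h θ a b (by omega) b2 (fun n hn => hN n (by omega)) a3).2 n hn (by omega)

theorem no_loop {x : ℝ} (h : x ∉ derivedSet lagrange) : ∃ δ > 0, ∀ θ φ : ℤ → ℕ+, Per φ →
    lam φ 0 = x → (∀ n, lam θ n < x + δ) → (∃ a s, ∀ n ≤ a, θ n = φ (n + s)) →
      (∃ b t, ∀ n ≥ b, θ n = φ (n + t)) → Per θ := by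
  obtain ⟨δ, hδ, r, P, hP, hr, h⟩ := noret h
  refine ⟨δ, hδ, fun θ φ ⟨p, hp, h1⟩ h2 h3 ⟨a, s, h4⟩ ⟨b, t, h5⟩ => ⟨P, hP, fun n => ?_⟩⟩
  obtain ⟨k, hk⟩ : ∃ k : ℤ, k = |a| + |b| + |s| + |t| + |n| + r + P := ⟨_, rfl⟩
  have h6 : k ≤ k * p := le_mul_of_one_le_right (by rw [hk]; positivity) (by omega)
  have := abs_le.1 (le_refl |a|)
  have := abs_le.1 (le_refl |b|)
  have := abs_le.1 (le_refl |s|)
  have := abs_le.1 (le_refl |t|)
  have := abs_le.1 (le_refl |n|)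
  have w1 : Win r θ (-s - k * p) φ 0 := fun i _ _ => by
    rw [h4 _ (by omega), ← per_mul h1 k]; congr 1; ring
  have w2 : Win r θ (-t + k * p) φ 0 := fun i _ _ => by
    rw [h5 _ (by omega), ← per_mul h1 (-k)]; congr 1; ring
  exact (h θ _ _ (by omega) (fun i h7 h8 => (w1 i h7 h8).trans (w2 i h7 h8).symm)
    (fun n _ => h3 n) (by linarith [(abs_le.1 (lam_close w1)).1])).2 n (by omega) (by omega)

theorem attained {y : ℝ} (h : y ∈ markov) : ∃ θ, Top θ y := by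
  obtain ⟨θ, h⟩ := h
  have h1 : ∀ n, lam θ n ≤ y := fun n => h.1 ⟨n, rfl⟩
  obtain ⟨U, hU⟩ := Ultrafilter.exists_le (comap (lam θ) (𝓝 y)) (h := by
    rw [← map_neBot_iff (lam θ), map_comap]
    exact mem_closure_iff_clusterPt.1 (h.mem_closure (Set.range_nonempty _)))
  obtain ⟨η, h2⟩ := ulim U (θ := fun k m => θ (m + k)) (D := y) fun n =>
    .of_forall fun k => by rw [lam_shift]; exact h1 _
  refine ⟨η, tendsto_nhds_unique (tend_lam h2 0) ?_, fun n => le_of_tendsto' (tend_lam h2 n)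
    fun k => by rw [lam_shift]; exact h1 _⟩
  simpa only [lam_shift, zero_add] using tendsto_comap.mono_left hU

theorem flip {s t : ℤ → ℕ+} {n : ℤ} (h : s n = t n) :
    (cf fun k => s (n + k)) < (cf fun k => t (n + k)) ↔
      (cf fun k => t (n + 1 + k)) < cf fun k => s (n + 1 + k) := by
  have h1 := one_le_d (t n)
  have h2 := cf_pos fun k => s (n + 1 + k)
  have h3 := cf_pos fun k => t (n + 1 + k)
  rw [fut_eq s, fut_eq t, h, one_div_lt_one_div (by positivity) (by positivity), add_lt_add_iff_left]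

theorem flip2 {s t : ℤ → ℕ+} (n : ℤ) (m : ℕ) (h : ∀ i, n ≤ i → i < n + 2 * m → s i = t i) :
    (cf fun k => s (n + k)) < (cf fun k => t (n + k)) ↔
      (cf fun k => s (n + 2 * m + k)) < cf fun k => t (n + 2 * m + k) := by
  induction m with
  | zero => simp
  | succ m ih =>
    rw [ih fun i h1 h2 => h i h1 (by omega), flip (h _ (by omega) (by omega)),
      flip (h _ (by omega) (by omega)).symm]
    simp only [Nat.cast_add, Nat.cast_one, mul_add, mul_one, add_assoc, ← two_mul]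

/-- an exit from `φ` at level `x` lowers the future at every top position -/
theorem exit_lt {x : ℝ} {φ η : ℤ → ℕ+} {n : ℤ} (hn : n ≤ 0) (h1 : lam φ n = x)
    (h2 : lam η n ≤ x) (h3 : ∀ n ≤ 0, η n = φ n) (h4 : η ≠ φ) :
    (cf fun k => η (n + 1 + k)) < cf fun k => φ (n + 1 + k) := by
  rw [← h1, lam, lam, h3 n hn, funext fun k : ℕ => h3 (n - 1 - k) (by omega)] at h2
  refine lt_of_le_of_ne (by linarith) fun h5 => h4 (funext fun m => ?_)
  rcases le_or_gt m 0 with hm | hm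
  · exact h3 m hm
  · convert cf_inj h5 (m - n - 1).toNat using 2 <;> omega

theorem top_even {x : ℝ} {φ η : ℤ → ℕ+} (hp : Per φ) (h1 : lam φ 0 = x) (h2 : ∀ n, lam η n ≤ x)
    (h3 : ∀ n ≤ 0, η n = φ n) (h4 : η ≠ φ) {n : ℤ} (h5 : lam φ n = x) : Even n := by
  obtain ⟨p, hp, h⟩ := hp
  by_contra h6
  obtain ⟨j, rfl⟩ := Int.not_even_iff_odd.1 h6
  have h7 : |j| + 1 ≤ (|j| + 1) * p := le_mul_of_one_le_right (by positivity) (by omega)
  obtain ⟨m, hm⟩ : ∃ m : ℕ, (m : ℤ) = (|j| + 1) * p - j - 1 :=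
    ⟨_, Int.toNat_of_nonneg (by linarith [le_abs_self j])⟩
  have h8 := exit_lt (n := -(2 * m) - 1) (by omega) (by
    rw [← h5, ← per_mul (lam_per h) (2 * (|j| + 1)), hm]; congr 1; ring) (h2 _) h3 h4
  rw [flip2 _ m fun i _ _ => h3 i (by omega), show -(2 * m : ℤ) - 1 + 1 + 2 * m = 0 by ring,
    flip (h3 0 le_rfl)] at h8
  exact lt_asymm h8 (exit_lt le_rfl h1 (h2 0) h3 h4)

theorem one_side {ι : Type} (U : Ultrafilter ι) {θ : ι → ℤ → ℕ+} {y : ι → ℝ} {x : ℝ}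
    {φ : ℤ → ℕ+} (hy : Tendsto y U (𝓝 x)) (h1 : ∀ᶠ k in U, ∀ n, lam (θ k) n ≤ y k) (hp : Per φ)
    (h2 : lam φ 0 = x) (h3 : ∀ n, ∀ᶠ k in U, θ k n = φ n) :
    (∀ᶠ k in U, (cf fun j => θ k (0 + 1 + j)) ≤ cf fun j => φ (0 + 1 + j)) ∧
      ((∀ᶠ k in U, x ≤ y k) ∨ ∃ η, (∀ n, lam η n ≤ x) ∧ (∀ n ≤ 0, η n = φ n) ∧ η ≠ φ) := by
  obtain ⟨p, hp, h⟩ := hp
  rcases U.em fun k => ∀ n : ℕ, θ k (n + 1) = φ (n + 1) with h4 | h4
  · refine ⟨h4.mono fun k hk => le_of_eq ?_, .inl ((h4.and h1).mono fun k ⟨hk, hk'⟩ => ?_)⟩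
    · simp only [zero_add, add_comm (1 : ℤ), hk]
    refine le_of_close fun r => ?_
    have h5 : (r + 1 : ℤ) ≤ (r + 1) * p := le_mul_of_one_le_right (by positivity) (by omega)
    have w : Win r (θ k) ((r + 1) * p) φ 0 := fun i _ _ => by
      rw [← per_mul h (r + 1)]
      convert hk ((r + 1) * p + i - 1).toNat using 2 <;> omega
    linarith [(abs_le.1 (lam_close w)).1, hk' ((r + 1) * p)]
  have h5 : ∀ k, (¬∀ n : ℕ, θ k (n + 1) = φ (n + 1)) → ∃ j i : ℕ, i < 2 * p ∧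
      θ k (i + 1 + 2 * (j * p)) ≠ φ (i + 1) ∧ ∀ n : ℤ, 0 < n → n ≤ 2 * (j * p) → θ k n = φ n := by
    intro k hk
    classical
    have hk := not_forall.1 hk
    have e : ((Nat.find hk % (2 * p) : ℕ) + 2 * ((Nat.find hk / (2 * p) : ℕ) * p) : ℤ) =
        Nat.find hk := by
      exact_mod_cast (by ring : _ = _).trans (Nat.mod_add_div' (Nat.find hk) (2 * p))
    refine ⟨Nat.find hk / (2 * p), Nat.find hk % (2 * p), Nat.mod_lt _ (by omega), ?_,
      fun n h5 h6 => ?_⟩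
    · rw [← per_mul h (2 * (Nat.find hk / (2 * p) : ℕ)), mul_assoc, add_right_comm, e]
      exact Nat.find_spec hk
    · convert not_not.1 (Nat.find_min hk (m := (n - 1).toNat) (by omega)) using 2 <;> omega
  choose! j i h5 h6 h7 using h5
  have hφ : ∀ k n, φ (n + 2 * (j k * p)) = φ n := fun k n => by rw [← mul_assoc, per_mul h]
  have h8 : ∀ M : ℤ, ∀ᶠ k in U, M ≤ 2 * (j k * p) := fun M => by
    filter_upwards [h4, ev_win h3 (M.natAbs + 2 * p) 0] with k hk w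
    by_contra h8
    have := h5 k hk
    have : (0 : ℤ) ≤ j k * p := by positivity
    exact h6 k hk (by
      simpa only [zero_add, hφ] using w (i k + 1 + 2 * (j k * p)) (by omega) (by omega))
  obtain ⟨η, h9⟩ := ulim U (θ := fun k m => θ k (m + 2 * (j k * p))) (D := x + 1) fun n => by
    filter_upwards [h1, hy.eventually (eventually_le_nhds (lt_add_one x))] with k hk hk'
    rw [lam_shift]
    exact (hk _).trans hk'
  have e1 : ∀ n, lam η n ≤ x := fun n => le_of_tendsto_of_tendsto (tend_lam h9 n) hy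
    (h1.mono fun k hk => by beta_reduce; rw [lam_shift]; exact hk _)
  have e2 : ∀ n ≤ 0, η n = φ n := fun n hn => by
    obtain ⟨k, ⟨a1, a2⟩, a3⟩ := ((h4.and (h8 (1 - n))).and (h9 n)).exists
    rw [← a3, h7 k a1 _ (by omega) (by omega), hφ]
  have e3 : η ≠ φ := by
    rintro rfl
    obtain ⟨k, a1, a2⟩ := (h4.and (ev_win h9 (2 * p) 0)).exists
    have := h5 k a1
    exact h6 k a1 (by simpa only [zero_add] using a2 (i k + 1) (by omega) (by omega))
  refine ⟨?_, .inr ⟨η, e1, e2, e3⟩⟩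
  have h10 := exit_lt le_rfl h2 (e1 0) e2 e3
  obtain ⟨r, hr⟩ := small (sub_pos.2 h10)
  filter_upwards [h4, ev_win h9 r 0] with k hk w
  have h11 := cf_close r (fun n => θ k (0 + 1 + n + 2 * (j k * p))) (fun n => η (0 + 1 + n))
    fun n hn => by simpa only [add_assoc] using w (1 + n) (by omega) (by omega)
  refine ((flip2 _ (j k * p) fun n _ _ => h7 k hk n (by omega) (by omega)).2 ?_).le
  simp only [Nat.cast_mul, add_right_comm _ (2 * (j k * p : ℤ)), hφ]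
  refine (sub_le_iff_le_add.1 (abs_le.1 h11).2).trans_lt ?_
  linarith [pow_pos (by norm_num : (0 : ℝ) < 1 / 2) r]

end Pool.Agent.Lib.MP_675cd9_nt
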