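import Pool.Agent.Lib.MP_675cd9_nt.Core

set_option autoImplicit false

namespace Pool.Agent.Lib.MP_675cd9_nt

/-- `u` is a root of a nonzero rational polynomial of degree at most two -/
def Quad (u : ℝ) : Prop := ∃ a b c : ℚ, ¬(a = 0 ∧ b = 0 ∧ c = 0) ∧ a * u ^ 2 + b * u + c = 0

theorem Quad.monic {u : ℝ} (hu : Irrational u) (h : Quad u) : ∃ r s : ℚ, u ^ 2 = r * u + s := by
  obtain ⟨a, b, c, h1, h2⟩ := h
  by_cases ha : a = 0
  · obtain ⟨h3, h4⟩ := lin_indep hu (a := c) (b := b) (by rw [ha] at h2; simp at h2; linarith)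
    exact absurd ⟨ha, h4, h3⟩ h1
  · have : (a : ℝ) ≠ 0 := by exact_mod_cast ha
    exact ⟨-b / a, -c / a, by push_cast; field_simp; linarith⟩

theorem quad_cf {b : ℕ → ℕ+} {N p : ℕ} (hp : 0 < p) (h : ∀ k, b (N + k + p) = b (N + k)) :
    Quad (cf b) := by
  have := back (fun j => Quad (cf fun k => b (j + k))) ?_ N ?_
  · simpa using this
  · rintro j ⟨a, b', c, h1, h2⟩
    have h3 := one_le_d (b j)
    have h4 := cf_pos fun k => b (j + 1 + k)
    refine ⟨a * (b j : ℕ) ^ 2 - b' * (b j : ℕ) + c, b' - 2 * a * (b j : ℕ), a, ?_, ?_⟩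
    · rintro ⟨h5, h6, rfl⟩
      exact h1 ⟨rfl, by simpa using h6, by simp_all⟩
    · rw [cf_sh]
      push_cast
      field_simp
      linear_combination h2
  · obtain ⟨A, B, C, D, -, h1, h2⟩ := mobius (fun k => b (N + k)) p
    have h3 := h2 (fun k => 1 / cf fun j => b (N + k + j)) fun k => by
      have := cf_pos fun j => b (N + (k + 1) + j)
      rw [cf_sh b (N + k), one_div_one_div, add_assoc N k 1]
      field_simp
    have e : (fun j => b (N + p + j)) = fun j => b (N + j) := funext fun j => by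
      rw [← h j, add_right_comm]
    simp only [e, add_zero] at h3
    have h4 := cf_pos fun j => b (N + j)
    refine ⟨B, A - D, -C, fun h5 => (h1 hp).ne' (by simpa using h5.2.2), ?_⟩
    push_cast
    field_simp at h3
    linarith

theorem fut_eq (θ : ℤ → ℕ+) (n : ℤ) :
    (cf fun k => θ (n + k)) = 1 / ((θ n : ℕ) + cf fun k => θ (n + 1 + k)) := by
  rw [cf_eq]
  simp only [Nat.cast_zero, add_zero, Nat.cast_add, Nat.cast_one, add_assoc, add_comm (1 : ℤ)]

theorem past_eq (θ : ℤ → ℕ+) (n : ℤ) :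
    (cf fun k => θ (n + 1 - 1 - k)) = 1 / ((θ n : ℕ) + cf fun k => θ (n - 1 - k)) := by
  rw [cf_eq]
  simp only [Nat.cast_zero, sub_zero, Nat.cast_add, Nat.cast_one, add_sub_cancel_right, sub_sub,
    add_comm (1 : ℤ)]

/-- the values of a periodic sequence are irrational square roots of rationals -/
theorem per_val {φ : ℤ → ℕ+} {p : ℕ} (hp : 0 < p) (h : ∀ n, φ (n + p) = φ n) :
    Irrational (lam φ 0) ∧ ∃ t : ℚ, lam φ 0 ^ 2 = t := by
  obtain ⟨A, B, C, D, -, h1, h2⟩ := mobius (fun k => φ k) p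
  have hC : (0 : ℝ) < C := by exact_mod_cast h1 hp
  have h3 := h2 (fun k => (φ k : ℕ) + cf fun j => φ (k + 1 + j)) fun k => by
    have := one_le_d (φ (k + 1))
    have := cf_pos fun j => φ (k + 1 + 1 + j)
    rw [fut_eq φ (k + 1)]
    push_cast
    field_simp
  have h4 := h2 (fun k => -cf fun j => φ (k - 1 - j)) fun k => by
    have := one_le_d (φ k)
    have := cf_pos fun j => φ (k - 1 - j)
    push_cast
    rw [past_eq]
    field_simp
    ring
  have e1 : (fun j : ℕ => φ (p + 1 + j)) = fun j : ℕ => φ (0 + 1 + j) := funext fun j => by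
    rw [← h (0 + 1 + j)]; congr 1; ring
  have e2 : (fun j : ℕ => φ (p - 1 - j)) = fun j : ℕ => φ (0 - 1 - j) := funext fun j => by
    rw [← h (0 - 1 - j)]; congr 1; ring
  have e3 : φ p = φ 0 := by simpa using h 0
  simp only [e1, e2, e3, Nat.cast_zero] at h3 h4
  have h5 := cf_irr fun j : ℕ => φ (0 + 1 + j)
  have h6 := cf_pos fun j : ℕ => φ (0 + 1 + j)
  have h7 := cf_pos fun j : ℕ => φ (0 - 1 - j)
  have h8 := one_le_d (φ 0)
  rw [lam]
  generalize (cf fun j : ℕ => φ (0 + 1 + j)) = u at *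
  generalize (cf fun j : ℕ => φ (0 - 1 - j)) = v at *
  have h9 : C * ((φ 0 : ℕ) + u - v) = A - D :=
    mul_left_cancel₀ (by positivity : ((φ 0 : ℕ) : ℝ) + u + v ≠ 0) (by linear_combination h3 - h4)
  refine ⟨fun ⟨q, hq⟩ => h5 ⟨(q + (A - D) / C) / 2 - (φ 0 : ℕ), ?_⟩,
    ((A - D) / C) ^ 2 + 4 * B / C, ?_⟩ <;> push_cast <;> rw [← h9]
  · field_simp
    linarith
  · field_simp
    linear_combination 4 * h3 - 4 * ((φ 0 : ℕ) + u) * h9

theorem lam_neg (θ : ℤ → ℕ+) (n : ℤ) : lam (fun m => θ (-m)) n = lam θ (-n) := by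
  rw [lam, lam, add_right_comm]
  congr 3 <;> ext k <;> congr 2 <;> ring

theorem good_right {θ : ℤ → ℕ+} {x : ℝ} (hx : ∀ n, lam θ n ≤ x) {N : ℤ} {p : ℕ} (hp : 0 < p)
    (h : ∀ n ≥ N, θ (n + p) = θ n) : Good x fun k => θ (0 + 1 + k) := by
  refine ⟨N.natAbs, p, hp, fun k => ?_, fun k => cf fun j => θ (0 + 1 + (N.natAbs + k) - 1 - j),
    fun k => ⟨cf_pos _, cf_lt_one _⟩, fun k => ?_, fun k => ?_⟩
  · convert h (0 + 1 + (N.natAbs + k : ℕ)) (by omega) using 1
    exact congrArg θ (by push_cast; ring)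
  · push_cast
    rw [← past_eq]
    congr 1; ext j; congr 2; ring
  · convert hx (0 + 1 + (N.natAbs + k : ℕ)) using 1
    rw [lam]
    congr 3
    exact funext fun j => congrArg θ (by push_cast; ring)

theorem rigid {θ : ℤ → ℕ+} {N M : ℤ} {p q : ℕ} (hp : 0 < p) (hq : 0 < q)
    (hR : ∀ n ≥ N, θ (n + p) = θ n) (hL : ∀ n ≤ M, θ (n - q) = θ n)
    (hmax : ∀ n, lam θ n ≤ lam θ 0) (hx : Irrational (lam θ 0)) {t : ℚ} (ht : lam θ 0 ^ 2 = t) :
    ∃ p : ℕ, 0 < p ∧ ∀ n, θ (n + p) = θ n := by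
  by_cases h2 : 2 ≤ lam θ 0
  swap
  · have : ∀ n, θ n = 1 := fun n => by
      have h3 := hmax n
      have h4 : ((θ n : ℕ) : ℝ) < 2 := by
        rw [lam] at h3
        linarith [cf_pos fun k => θ (n + 1 + k), cf_pos fun k => θ (n - 1 - k)]
      have h5 : (θ n : ℕ) < 2 := by exact_mod_cast h4
      exact PNat.eq (by have := (θ n).pos; change _ = 1; omega)
    exact ⟨1, one_pos, fun n => by rw [this, this]⟩
  have g1 := good_right hmax hp hR
  have g2 : Good (lam θ 0) fun k => θ (0 - 1 - k) := by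
    have := good_right (θ := fun m => θ (-m)) (N := -M) (fun n => (lam_neg θ n).trans_le (hmax _))
      hq fun n hn => by rw [← hL (-n) (by omega), neg_add']
    convert this using 3
    ring
  have b1 := fun z => bound (z := z) hx ht h2 g1
  have b2 := fun z => bound (z := z) hx ht h2 g2
  obtain ⟨N', p', hp', h3, -⟩ := g1
  obtain ⟨_, _, hq', h3', -⟩ := g2
  obtain ⟨r, s, q1⟩ := (quad_cf (b := fun k => θ (0 + 1 + k)) hp' h3).monic (cf_irr _)
  obtain ⟨r', s', q2⟩ := (quad_cf (b := fun k => θ (0 - 1 - k)) hq' h3').monic (cf_irr _)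
  have e : lam θ 0 = (θ 0 : ℕ) + (cf fun k => θ (0 + 1 + k)) + cf fun k => θ (0 - 1 - k) := rfl
  generalize lam θ 0 = x at *
  obtain ⟨a, b, hab⟩ : ∃ a b : ℚ, (cf fun k => θ (0 + 1 + k)) = a + b * x := by
    generalize (cf fun k => θ (0 + 1 + k)) = z at *
    generalize (cf fun k => θ (0 - 1 - k)) = w at *
    generalize (θ 0 : ℕ) = d at *
    obtain ⟨m, hm⟩ : ∃ m : ℚ, m = r + r' + 2 * d := ⟨_, rfl⟩
    obtain ⟨n, hn⟩ : ∃ n : ℚ, n = s' - s - t - d ^ 2 - r' * d := ⟨_, rfl⟩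
    have h4 : z * (m - 2 * x) = (r' + 2 * d) * x + n := by
      rw [hm, hn]
      push_cast
      have : w = x - d - z := by linarith
      subst this
      linear_combination q2 - q1 - ht
    have h5 : (m : ℝ) ^ 2 - 4 * t ≠ 0 := by
      rw [← ht, show (m : ℝ) ^ 2 - 4 * x ^ 2 = (m + (2 : ℚ) * x) * (m + (-2 : ℚ) * x) by
        push_cast; ring]
      exact mul_ne_zero (fun h => by simpa using (lin_indep hx h).2)
        fun h => by simpa using (lin_indep hx h).2
    refine ⟨(n * m + 2 * (r' + 2 * d) * t) / (m ^ 2 - 4 * t),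
      ((r' + 2 * d) * m + 2 * n) / (m ^ 2 - 4 * t), ?_⟩
    push_cast
    rw [div_mul_eq_mul_div, ← add_div, eq_div_iff h5]
    linear_combination (m + 2 * x) * h4 + (4 * z + 2 * (r' + 2 * d)) * ht
  have c1 := abs_le.1 (b1 _ ⟨a, b, hab, rfl⟩)
  have c2 := abs_le.1 (b2 _ ⟨-a - (θ 0 : ℕ), 1 - b, by
    rw [Rat.cast_sub, Rat.cast_sub, Rat.cast_neg, Rat.cast_natCast, Rat.cast_one]; linarith, rfl⟩)
  rw [Rat.cast_sub, Rat.cast_sub, Rat.cast_neg, Rat.cast_natCast, Rat.cast_one] at c2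
  have hc : Conj x (cf fun k => θ (0 + 1 + k)) (-1 / cf fun j => θ (0 + 1 + (0 : ℕ) - 1 - j)) := by
    refine ⟨a, b, hab, ?_⟩
    rw [Nat.cast_zero, add_zero, past_eq, neg_div, one_div_one_div]
    linarith
  obtain ⟨h4, h5⟩ := coreA hx ht h3 (y := fun k => cf fun j => θ (0 + 1 + k - 1 - j))
    (fun k => ⟨cf_pos _, cf_lt_one _⟩) (fun k => by push_cast; rw [← add_assoc, past_eq]) hc
  refine ⟨p', hp', fun n => ?_⟩
  rcases le_total n 0 with hn | hn
  · have := cf_inj h5 (-n).toNat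
    convert this using 2 <;> omega
  · rcases hn.eq_or_lt with rfl | hn
    · simpa using cf_inj h5 0
    · convert h4 (n - 1).toNat using 2 <;> omega

end Pool.Agent.Lib.MP_675cd9_nt
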